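import Pool.Agent.J4H77.LP.Lin
import Pool.Agent.N469.LP.Schin
import Pool.Agent.H560R3.GB.Defs

set_option autoImplicit false

/-! Primes `p < n` for which `⌊(n - p) / m⌋` is prime, for all the integers near almost all the values of a random integer with
a thin large spectrum. The definitions and lemmas up to `holds_of` are copied from the starting file
`MP_4011c3_nt/SmoothNumbers`. -/

namespace Pool.Agent.J4H77.LP.Floor

open Finset Pool.Agent.H560R3.GB

/-- The pair `(m, n)` is admissible (the definition of the problem). -/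
def Admissible (m n : ℕ) : Prop :=
  2 * m + 1 < n ∧ ((m = 1 ∧ Even n) ∨ (m = 3 ∧ ¬ n ≡ 1 [MOD 6]) ∨ m = 2 ∨ 4 ≤ m)

/-- The number of the primes `p < n` for which `⌊(n - p) / m⌋` is prime. -/
def reps (m n : ℕ) : ℕ := ((range n).filter fun p => p.Prime ∧ ((n - p) / m).Prime).card

open Classical in
/-- The offsets `j < m` for which there is no local obstruction to `n - j = p + m q`. -/
noncomputable def offsets (m n : ℕ) : Finset ℕ := (range m).filter fun j => Nat.Coprime (n - j) m ∧ Odd (n - j + m)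

/-- The expected number of the `p`: for every offset `j` there are about `𝔖(m (n - j)) (n / m) / log² N` pairs of primes
`p`, `q` with `p + m q = n - j`. -/
noncomputable def mainN (N m n : ℕ) : ℝ := ∑ j ∈ offsets m n, sing (m * (n - j)) * ((n : ℝ) / m / Real.log N ^ 2)

/-- For all `m ≤ M`: the number of the primes `p < n` for which `⌊(n - p) / m⌋` is prime is asymptotically the expected
number, up to at most `2 m` degenerate representations, and there is such a prime `p` if the pair `(m, n)` is admissible. -/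
def HoldsN (ε : ℝ) (M N n : ℕ) : Prop :=
  ∀ m : ℕ, 1 ≤ m → m ≤ M → |(reps m n : ℝ) - mainN N m n| ≤ ε * mainN N m n + 2 * m ∧
    (Admissible m n → ∃ p : ℕ, p < n ∧ p.Prime ∧ ((n - p) / m).Prime)

lemma cop (N m k c : ℕ) (h : N + c = m * k ∨ N = m * k + c) (hc : Nat.Coprime c m) : Nat.Coprime N m := by
  by_contra hne
  obtain ⟨p, hp, hpN, hpm⟩ := Nat.Prime.not_coprime_iff_dvd.1 hne
  have h1 : p ∣ m * k := Dvd.dvd.mul_right hpm k
  have h2 : p ∣ c := by
    rcases h with h | h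
    · rw [← h] at h1
      exact (Nat.dvd_add_right hpN).1 h1
    · rw [h] at hpN
      exact (Nat.dvd_add_right h1).1 hpN
  exact (Nat.Prime.not_coprime_iff_dvd.2 ⟨p, hp, h2, hpm⟩) hc

lemma loc (m n : ℕ) (hm : 1 ≤ m) (h : Admissible m n) : ∃ r, r < m ∧ (n - r).Coprime m ∧ Odd (n - r + m) := by
  obtain ⟨hn, hcase⟩ := h
  have hdm := Nat.div_add_mod (n - 1) m
  have hlt := Nat.mod_lt (n - 1) (show 0 < m by omega)
  generalize hk : (n - 1) / m = k at *
  generalize ha : (n - 1) % m = a at *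
  rcases Nat.even_or_odd m with hme | hmo
  · refine ⟨a, hlt, ?_, ?_⟩
    · exact cop (n - a) m k 1 (Or.inr (by omega)) (Nat.coprime_one_left m)
    · have h1 : n - a = m * k + 1 := by omega
      rw [h1]
      have h2 : Even (m * k) := hme.mul_right k
      obtain ⟨t, ht⟩ := h2
      obtain ⟨s, hs⟩ := hme
      exact ⟨t + s, by omega⟩
  · have h2m : Nat.Coprime 2 m := Nat.coprime_two_left.2 hmo
    obtain ⟨s, hs⟩ := hmo
    rcases Nat.eq_zero_or_pos a with ha0 | ha0
    · rcases Nat.even_or_odd n with hne | hno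
      · obtain ⟨t, ht⟩ := hne
        refine ⟨0, by omega, ?_, ⟨t + s, by omega⟩⟩
        rw [Nat.sub_zero]
        exact cop n m k 1 (Or.inr (by omega)) (Nat.coprime_one_left m)
      · obtain ⟨t, ht⟩ := hno
        have hm5 : 5 ≤ m := by
          rcases hcase with ⟨_, ⟨u, hu⟩⟩ | ⟨h3, h6⟩ | h2 | h4
          · omega
          · exfalso
            apply h6
            unfold Nat.ModEq
            subst h3
            omega
          · omega
          · omega
        refine ⟨3, by omega, ?_, ⟨t + s - 1, by omega⟩⟩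
        exact cop (n - 3) m k 2 (Or.inl (by omega)) h2m
    · rcases Nat.even_or_odd (n - a) with hne | hno
      · obtain ⟨t, ht⟩ := hne
        refine ⟨a, hlt, ?_, ⟨t + s, by omega⟩⟩
        exact cop (n - a) m k 1 (Or.inr (by omega)) (Nat.coprime_one_left m)
      · obtain ⟨t, ht⟩ := hno
        refine ⟨a - 1, by omega, ?_, ⟨t + s + 1, by omega⟩⟩
        exact cop (n - (a - 1)) m k 2 (Or.inr (by omega)) h2m


/-- the number of the `q` for a given offset -/
def repsj (m n j : ℕ) : ℕ := ((range n).filter fun p => p.Prime ∧ ((n - p) / m).Prime ∧ (n - p) % m = j).card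

theorem reps_eq (m n : ℕ) (hm : 1 ≤ m) : reps m n = ∑ j ∈ range m, repsj m n j := by
  unfold reps repsj
  rw [card_eq_sum_card_fiberwise (f := fun p => (n - p) % m) (t := range m) (fun p _ => by
    rw [mem_coe, mem_range]
    exact Nat.mod_lt _ (by omega))]
  apply sum_congr rfl
  intro j _
  rw [filter_filter]
  congr 1
  ext p
  simp only [mem_filter]
  tauto

theorem bad_le (m n j : ℕ) (hm : 1 ≤ m) (hj : j < m) (hjn : j < n) (hbad : ¬ (Nat.Coprime (n - j) m ∧ Odd (n - j + m))) : repsj m n j ≤ 2 := by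
  classical
  have hrep : ∀ p, p < n → (n - p) % m = j → n - j = p + m * ((n - p) / m) := by
    intro p hp h1
    have := Nat.mod_add_div (n - p) m
    rw [h1] at this
    omega
  by_cases hc : Nat.Coprime (n - j) m
  · -- parity
    have hodd : ¬ Odd (n - j + m) := fun h => hbad ⟨hc, h⟩
    have hev : Even (n - j + m) := Nat.not_odd_iff_even.1 hodd
    have hmo : Odd m := by
      rw [← Nat.not_even_iff_odd]
      intro hme
      have h2 : Even (n - j) := by
        rw [Nat.even_add] at hev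
        exact hev.2 hme
      have h3 : 2 ∣ Nat.gcd (n - j) m := Nat.dvd_gcd h2.two_dvd hme.two_dvd
      rw [hc] at h3
      omega
    have hno : Odd (n - j) := by
      rw [← Nat.not_even_iff_odd]
      intro h
      rw [Nat.even_add] at hev
      exact (Nat.not_even_iff_odd.2 hmo) (hev.1 h)
    have hsub : (range n).filter (fun p => p.Prime ∧ ((n - p) / m).Prime ∧ (n - p) % m = j) ⊆ {2, n - j - 2 * m} := by
      intro p hp
      rw [mem_filter, mem_range] at hp
      obtain ⟨h1, h2, h3, h4⟩ := hp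
      have h5 := hrep p h1 h4
      rw [mem_insert, mem_singleton]
      rcases h2.eq_two_or_odd' with h6 | h6
      · exact Or.inl h6
      · right
        rcases h3.eq_two_or_odd' with h7 | h7
        · rw [h7] at h5
          omega
        · exfalso
          have h8 : Even (p + m * ((n - p) / m)) := h6.add_odd (hmo.mul h7)
          rw [← h5] at h8
          exact (Nat.not_even_iff_odd.2 hno) h8
    unfold repsj
    exact (card_le_card hsub).trans card_le_two
  · obtain ⟨g, hg, hgn, hgm⟩ := Nat.Prime.not_coprime_iff_dvd.1 hc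
    have hsub : (range n).filter (fun p => p.Prime ∧ ((n - p) / m).Prime ∧ (n - p) % m = j) ⊆ {g} := by
      intro p hp
      rw [mem_filter, mem_range] at hp
      obtain ⟨h1, h2, h3, h4⟩ := hp
      have h5 := hrep p h1 h4
      rw [mem_singleton]
      have h6 : g ∣ p := by
        rw [h5] at hgn
        exact (Nat.dvd_add_left (Dvd.dvd.mul_right hgm _)).1 hgn
      exact ((Nat.prime_dvd_prime_iff_eq hg h2).1 h6).symm
    unfold repsj
    exact (card_le_card hsub).trans (by rw [card_singleton]; norm_num)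

open Pool.Agent.N469.LP in
theorem repsj_cpw (m n j : ℕ) (hm : 1 ≤ m) (hj : j < m) (hjn : j < n) :
    repsj m n j = cpw (-(m : ℤ)) ((n - j : ℕ) : ℤ) 1 0 0 ((n - j - 1) / m) := by
  unfold repsj cpw
  apply card_bij (fun (p : ℕ) _ => (n - p) / m)
  · intro p hp
    rw [mem_filter, mem_range] at hp
    obtain ⟨h1, h2, h3, h4⟩ := hp
    have h5 := Nat.mod_add_div (n - p) m
    rw [h4] at h5
    obtain ⟨t, ht⟩ : ∃ t, t = (n - p) / m := ⟨_, rfl⟩
    rw [← ht] at h3 h5 ⊢
    rw [mem_filter, mem_Ioc]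
    have h6 := h2.one_lt
    have h7 : m * t + p = n - j := by omega
    refine ⟨⟨h3.pos, ?_⟩, h3, Nat.modEq_one, ?_⟩
    · rw [Nat.le_div_iff_mul_le (by omega), mul_comm]
      omega
    · have e : (-(m : ℤ) * (t : ℤ) + ((n - j : ℕ) : ℤ)).toNat = p := by
        rw [← h7]
        push_cast
        have : -(m : ℤ) * t + (m * t + p) = p := by ring
        rw [this, Int.toNat_natCast]
      rw [e]
      exact h2
  · intro p hp p' hp' he
    rw [mem_filter, mem_range] at hp hp'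
    obtain ⟨h1, h2, h3, h4⟩ := hp
    obtain ⟨h1', h2', h3', h4'⟩ := hp'
    have h5 := Nat.mod_add_div (n - p) m
    have h5' := Nat.mod_add_div (n - p') m
    rw [h4] at h5
    rw [h4'] at h5'
    rw [he] at h5
    omega
  · intro t ht
    rw [mem_filter, mem_Ioc] at ht
    obtain ⟨⟨h1, h2⟩, h3, _, h4⟩ := ht
    rw [Nat.le_div_iff_mul_le (by omega), mul_comm] at h2
    have e : (-(m : ℤ) * (t : ℤ) + ((n - j : ℕ) : ℤ)).toNat = n - j - m * t := by
      have h6 : ((n - j : ℕ) : ℤ) = ((n - j - m * t : ℕ) : ℤ) + m * t := by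
        have : n - j = (n - j - m * t) + m * t := by omega
        conv_lhs => rw [this]
        push_cast
        ring
      rw [h6]
      have : -(m : ℤ) * t + (((n - j - m * t : ℕ) : ℤ) + m * t) = ((n - j - m * t : ℕ) : ℤ) := by ring
      rw [this, Int.toNat_natCast]
    rw [e] at h4
    have h7 := h4.one_lt
    have h9 : 0 < m * t := Nat.mul_pos hm h3.pos
    have h8 : n - (n - j - m * t) = j + m * t := by omega
    refine ⟨n - j - m * t, ?_, ?_⟩
    · rw [mem_filter, mem_range, h8, Nat.add_mul_div_left _ _ (by omega), Nat.div_eq_of_lt hj, zero_add, Nat.add_mul_mod_self_left,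
        Nat.mod_eq_of_lt hj]
      exact ⟨by omega, h4, h3, rfl⟩
    · rw [h8, Nat.add_mul_div_left _ _ (by omega), Nat.div_eq_of_lt hj, zero_add]


open Pool.Agent.N469.LP in
theorem one_offset (ε : ℝ) (hε : 0 < ε) (B M W : ℕ) : ∃ N₀ : ℕ, ∀ N, N₀ ≤ N → ∀ n : ℕ, (N : ℝ) / Real.log N ^ W ≤ n → n ≤ B * N →
    ∀ m j : ℕ, 1 ≤ m → m ≤ M → j < m → j < n ∧ (GoodL (ε / 3) B 0 (W + 1) (-(m : ℤ)) N ((n - j : ℕ) : ℤ) →
      |(repsj m n j : ℝ) - sing (m * (n - j)) * ((n : ℝ) / m / Real.log N ^ 2)| ≤ ε * (sing (m * (n - j)) * ((n : ℝ) / m / Real.log N ^ 2)) ∧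
      0 < sing (m * (n - j)) * ((n : ℝ) / m / Real.log N ^ 2)) := by
  obtain ⟨n1, h1⟩ := Pool.Agent.H373R2.T7.ev_L' (6 / ε + 2 * M + 4)
  obtain ⟨n2, h2⟩ := Pool.Agent.H373R2.T7.ev_log' (W + 4) 1
  refine ⟨n1 + n2 + 4, fun N hN n hn1 hn2 m j hm hmM hj => ?_⟩
  have hL := h1 N (by omega)
  have hs := h2 N (by omega)
  rw [one_mul] at hs
  have hN0 : (0 : ℝ) < N := by exact_mod_cast (by omega : 0 < N)
  obtain ⟨L, hLd⟩ : ∃ L, L = Real.log (N : ℝ) := ⟨_, rfl⟩
  unfold GoodL
  rw [← hLd] at hL hs hn1 ⊢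
  have p1 : 0 < 6 / ε := by positivity
  have hMr : (1 : ℝ) ≤ M := by exact_mod_cast hm.trans hmM
  have hmr : (1 : ℝ) ≤ m := by exact_mod_cast hm
  have hmMr : (m : ℝ) ≤ M := by exact_mod_cast hmM
  have hL4 : 4 ≤ L := by linarith
  have hL1 : 1 ≤ L := by linarith
  have hL0 : 0 < L := by linarith
  have hss : √(N : ℝ) * √(N : ℝ) = N := Real.mul_self_sqrt hN0.le
  have hbig : L ^ 3 ≤ N / L ^ (W + 1) := by
    rw [le_div_iff₀ (by positivity)]
    have hs1 : 1 ≤ √(N : ℝ) := (one_le_pow₀ hL1).trans hs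
    calc L ^ 3 * L ^ (W + 1) = L ^ (W + 4) := by rw [← pow_add]; congr 1; ring
      _ ≤ √N := hs
      _ ≤ √N * √N := by nlinarith
      _ = N := hss
  have hNW : (N : ℝ) / L ^ W = L * (N / L ^ (W + 1)) := by rw [pow_succ]; field_simp
  have hL3 : L ≤ L ^ 3 := le_self_pow₀ hL1 (by norm_num)
  -- `n / m` is large
  have hnm : 2 * (N / L ^ (W + 1)) ≤ (n : ℝ) / m := by
    rw [le_div_iff₀ (by linarith)]
    calc 2 * ((N : ℝ) / L ^ (W + 1)) * m ≤ 2 * (N / L ^ (W + 1)) * M := mul_le_mul_of_nonneg_left hmMr (by positivity)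
      _ = (2 * M) * (N / L ^ (W + 1)) := by ring
      _ ≤ L * (N / L ^ (W + 1)) := by
          apply mul_le_mul_of_nonneg_right _ (by positivity)
          linarith
      _ = N / L ^ W := hNW.symm
      _ ≤ n := hn1
  have hnm2 : 2 * L ≤ (n : ℝ) / m := by linarith
  have hnL : L ≤ n := by
    have : (n : ℝ) / m ≤ n := div_le_self (Nat.cast_nonneg _) hmr
    linarith
  have hjn : j < n := by
    have h3 : (j : ℝ) < n := by
      have : (j : ℝ) < m := by exact_mod_cast hj
      linarith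
    exact_mod_cast h3
  refine ⟨hjn, fun hgood => ?_⟩
  obtain ⟨M', hM'⟩ : ∃ M', M' = (n - j - 1) / m := ⟨_, rfl⟩
  have d1 : M' * m ≤ n - j - 1 := by rw [hM']; exact Nat.div_mul_le_self _ _
  have d2 : n - j - 1 < (M' + 1) * m := by
    rw [hM']
    have := Nat.lt_div_mul_add (a := n - j - 1) (b := m) (by omega)
    linarith
  have c1 : ((n - j - 1 : ℕ) : ℝ) = n - j - 1 := by
    rw [Nat.cast_sub (by omega), Nat.cast_sub (by omega)]
    push_cast
    ring
  have e1 : (M' : ℝ) * m ≤ n - j - 1 := by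
    rw [← c1]
    exact_mod_cast d1
  have e2 : (n : ℝ) - j - 1 < (M' + 1) * m := by
    rw [← c1]
    exact_mod_cast d2
  have hj0 : (0 : ℝ) ≤ j := Nat.cast_nonneg _
  have hjm : (j : ℝ) + 1 ≤ m := by exact_mod_cast hj
  have f1 : (M' : ℝ) ≤ (n : ℝ) / m := by
    rw [le_div_iff₀ (by linarith)]
    linarith
  have f2 : (n : ℝ) / m - 2 ≤ M' := by
    rw [sub_le_iff_le_add, div_le_iff₀ (by linarith)]
    nlinarith
  have hM'B : M' ≤ B * N := by
    have : M' ≤ M' * m := Nat.le_mul_of_pos_right _ (by omega)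
    omega
  have hkey := hgood 1 0 0 M' le_rfl (by simp) (Nat.coprime_one_right _) (by simp) hM'B (by
    rw [Nat.cast_zero, zero_add]
    have : 2 ≤ N / L ^ (W + 1) := by
      have : (4 : ℝ) ≤ L ^ 3 := hL4.trans hL3
      linarith
    linarith) (by
    intro t ht
    rw [mem_Ioc] at ht
    have h3 : t * m ≤ n - j - 1 := (Nat.mul_le_mul_right _ ht.2).trans d1
    have h4 : ((t * m : ℕ) : ℤ) < ((n - j : ℕ) : ℤ) := by
      have : t * m < n - j := by omega
      exact_mod_cast this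
    push_cast at h4 ⊢
    linarith [mul_comm (t : ℤ) (m : ℤ)])
  rw [hM', ← repsj_cpw m n j hm hj hjn, ← hM'] at hkey
  have hd : Pool.Agent.N469.LP.dens (-(m : ℤ)) ((n - j : ℕ) : ℤ) 1 = sing (m * (n - j)) := by
    unfold Pool.Agent.N469.LP.dens
    have : (-(m : ℤ) * ((n - j : ℕ) : ℤ)).natAbs = m * (n - j) := by
      rw [Int.natAbs_mul, Int.natAbs_neg, Int.natAbs_natCast, Int.natAbs_natCast]
    rw [this]
    unfold Pool.Agent.W93.PP.Cnt
    have e : (range 1).filter (fun x : ℕ => Nat.Coprime x 1 ∧ Nat.Coprime (x + m * (n - j)) 1) = range 1 := by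
      apply filter_true_of_mem
      intro x _
      exact ⟨Nat.coprime_one_right x, Nat.coprime_one_right _⟩
    rw [e, card_range, Nat.cast_one, div_one]
  rw [hd, Nat.cast_zero, sub_zero] at hkey
  obtain ⟨S, hS⟩ : ∃ S, S = sing (m * (n - j)) := ⟨_, rfl⟩
  have hS1 : 1 ≤ S := by rw [hS]; exact Pool.Agent.W93.GB.one_le_sing _
  rw [← hS] at hkey ⊢
  obtain ⟨Q, hQ⟩ : ∃ Q, Q = (n : ℝ) / m := ⟨_, rfl⟩
  rw [← hQ] at f1 f2 hnm2 ⊢
  have hQ0 : 0 < Q := by linarith
  obtain ⟨g, hg⟩ : ∃ g, g = S / L ^ 2 := ⟨_, rfl⟩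
  have hg0 : 0 < g := by rw [hg]; positivity
  have e3 : S * ((M' : ℝ) / L ^ 2) = g * M' := by rw [hg]; ring
  have e4 : S * (Q / L ^ 2) = g * Q := by rw [hg]; ring
  rw [e3] at hkey
  rw [e4]
  have f3 : g * M' ≤ g * Q := mul_le_mul_of_nonneg_left f1 hg0.le
  have f4 : g * (Q - M') ≤ g * (ε / 3 * Q) := by
    apply mul_le_mul_of_nonneg_left _ hg0.le
    have f5 : 6 / ε ≤ Q := by linarith
    rw [div_le_iff₀ hε] at f5
    linarith
  have f6 : ε / 3 * (g * M') ≤ ε / 3 * (g * Q) := mul_le_mul_of_nonneg_left f3 (by positivity)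
  have f7 := abs_le.1 hkey
  have f8 : 0 < g * Q := by positivity
  refine ⟨?_, f8⟩
  rw [abs_le]
  have f9 : 0 < ε * (g * Q) := by positivity
  constructor <;> nlinarith [f7.1, f7.2]

theorem holds_of (ε : ℝ) (hε : 0 < ε) (hε1 : ε < 1) (N M n : ℕ)
    (h : ∀ m j : ℕ, 1 ≤ m → m ≤ M → j < m → j < n ∧ (Nat.Coprime (n - j) m ∧ Odd (n - j + m) →
      |(repsj m n j : ℝ) - sing (m * (n - j)) * ((n : ℝ) / m / Real.log N ^ 2)| ≤ ε * (sing (m * (n - j)) * ((n : ℝ) / m / Real.log N ^ 2)) ∧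
      0 < sing (m * (n - j)) * ((n : ℝ) / m / Real.log N ^ 2))) : HoldsN ε M N n := by
  classical
  intro m hm hmM
  constructor
  · rw [reps_eq m n hm]
    push_cast
    unfold mainN
    have e1 : ∑ j ∈ range m, (repsj m n j : ℝ) = ∑ j ∈ offsets m n, (repsj m n j : ℝ) +
        ∑ j ∈ (range m).filter (fun j => ¬ (Nat.Coprime (n - j) m ∧ Odd (n - j + m))), (repsj m n j : ℝ) := by
      unfold offsets
      exact (sum_filter_add_sum_filter_not (range m) (fun j => Nat.Coprime (n - j) m ∧ Odd (n - j + m)) _).symm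
    rw [e1]
    obtain ⟨b, hb⟩ : ∃ b, b = ∑ j ∈ (range m).filter (fun j => ¬ (Nat.Coprime (n - j) m ∧ Odd (n - j + m))), (repsj m n j : ℝ) := ⟨_, rfl⟩
    rw [← hb]
    have hb0 : 0 ≤ b := by rw [hb]; exact sum_nonneg fun _ _ => Nat.cast_nonneg _
    have hb1 : b ≤ 2 * m := by
      have q1 : ∀ j ∈ (range m).filter (fun j => ¬ (Nat.Coprime (n - j) m ∧ Odd (n - j + m))), (repsj m n j : ℝ) ≤ 2 := by
        intro j hj
        rw [mem_filter, mem_range] at hj
        have := bad_le m n j hm hj.1 (h m j hm hmM hj.1).1 hj.2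
        exact_mod_cast this
      rw [hb]
      refine (sum_le_sum q1).trans ?_
      rw [sum_const, nsmul_eq_mul]
      have q2 : (((range m).filter (fun j => ¬ (Nat.Coprime (n - j) m ∧ Odd (n - j + m)))).card : ℝ) ≤ m := by
        have := card_filter_le (range m) (fun j => ¬ (Nat.Coprime (n - j) m ∧ Odd (n - j + m)))
        rw [card_range] at this
        exact_mod_cast this
      linarith
    have hoff : |∑ j ∈ offsets m n, (repsj m n j : ℝ) - ∑ j ∈ offsets m n, sing (m * (n - j)) * ((n : ℝ) / m / Real.log N ^ 2)| ≤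
        ε * ∑ j ∈ offsets m n, sing (m * (n - j)) * ((n : ℝ) / m / Real.log N ^ 2) := by
      rw [← sum_sub_distrib, mul_sum]
      refine (abs_sum_le_sum_abs _ _).trans (sum_le_sum fun j hj => ?_)
      unfold offsets at hj
      rw [mem_filter, mem_range] at hj
      exact ((h m j hm hmM hj.1).2 hj.2).1
    have h3 := abs_le.1 hoff
    rw [abs_le]
    constructor <;> linarith [h3.1, h3.2]
  · intro hadm
    obtain ⟨j, hj, h1, h2⟩ := loc m n hm hadm
    obtain ⟨h3, h4⟩ := h m j hm hmM hj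
    obtain ⟨h5, h6⟩ := h4 ⟨h1, h2⟩
    have h7 : 0 < (repsj m n j : ℝ) := by
      have := (abs_le.1 h5).1
      have h8 := mul_lt_mul_of_pos_right hε1 h6
      linarith
    have h8 : 0 < repsj m n j := by exact_mod_cast h7
    unfold repsj at h8
    rw [card_pos] at h8
    obtain ⟨p, hp⟩ := h8
    rw [mem_filter, mem_range] at hp
    exact ⟨p, hp.1, hp.2.1, hp.2.2.1⟩


/-- The expected number of the `p`: for every offset `j` there are about `𝔖(m (n - j)) (n / m) / log² n` pairs of primes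
`p`, `q` with `p + m q = n - j`. -/
noncomputable def main (m n : ℕ) : ℝ := ∑ j ∈ offsets m n, sing (m * (n - j)) * ((n : ℝ) / m / Real.log n ^ 2)

/-- For all `m ≤ M`: the number of the primes `p < n` for which `⌊(n - p) / m⌋` is prime is asymptotically the expected
number, up to at most `2 m` degenerate representations, and there is such a prime `p` if the pair `(m, n)` is admissible. -/
def Holds (ε : ℝ) (M n : ℕ) : Prop :=
  ∀ m : ℕ, 1 ≤ m → m ≤ M → |(reps m n : ℝ) - main m n| ≤ ε * main m n + 2 * m ∧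
    (Admissible m n → ∃ p : ℕ, p < n ∧ p.Prime ∧ ((n - p) / m).Prime)

lemma holds_log (ε : ℝ) (hε : 0 < ε) (hε1 : ε ≤ 1) (M N n : ℕ) (hN : 0 < Real.log (N : ℝ)) (hn : 0 < Real.log (n : ℝ))
    (h : HoldsN (ε / 4) M N n) (hlog : |Real.log (n : ℝ) ^ 2 - Real.log N ^ 2| ≤ ε / 4 * Real.log N ^ 2) : Holds ε M n := by
  intro m hm hmM
  obtain ⟨h1, h2⟩ := h m hm hmM
  refine ⟨?_, h2⟩
  obtain ⟨a, ha⟩ : ∃ a, a = Real.log (n : ℝ) ^ 2 := ⟨_, rfl⟩
  obtain ⟨c, hc⟩ : ∃ c, c = Real.log (N : ℝ) ^ 2 := ⟨_, rfl⟩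
  have ha0 : 0 < a := by rw [ha]; positivity
  have hc0 : 0 < c := by rw [hc]; positivity
  obtain ⟨S, hS⟩ : ∃ S : ℝ, S = ∑ j ∈ offsets m n, sing (m * (n - j)) * ((n : ℝ) / m) := ⟨_, rfl⟩
  have hS0 : 0 ≤ S := by
    rw [hS]
    apply sum_nonneg
    intro j _
    have := Pool.Agent.W93.GB.one_le_sing (m * (n - j))
    positivity
  have e1 : mainN N m n = S / c := by
    rw [hS, sum_div]
    unfold mainN
    apply sum_congr rfl
    intro j _
    rw [← hc]
    ring
  have e2 : main m n = S / a := by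
    rw [hS, sum_div]
    unfold main
    apply sum_congr rfl
    intro j _
    rw [← ha]
    ring
  rw [← ha, ← hc] at hlog
  rw [e1] at h1
  rw [e2]
  have h3 := abs_le.1 hlog
  have hca : c ≤ 2 * a := by nlinarith [h3.1]
  have hac : a ≤ 2 * c := by nlinarith [h3.2]
  have e3 : |S / c - S / a| ≤ ε / 4 * (S / a) := by
    have e4 : S / c - S / a = (S / a) * ((a - c) / c) := by
      field_simp
    rw [e4, abs_mul, abs_of_nonneg (by positivity : 0 ≤ S / a), abs_div, abs_of_pos hc0, mul_comm]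
    apply mul_le_mul_of_nonneg_right _ (by positivity)
    rw [div_le_iff₀ hc0]
    exact hlog
  have e5 : S / c ≤ 2 * (S / a) := by
    rw [div_le_iff₀ hc0]
    have : 2 * (S / a) * c = S * ((2 * c) / a) := by ring
    rw [this]
    have h5 : 1 ≤ (2 * c) / a := by rw [one_le_div ha0]; exact hac
    nlinarith
  have e6 : ε / 4 * (S / c) ≤ ε / 4 * (2 * (S / a)) := mul_le_mul_of_nonneg_left e5 (by positivity)
  have e7 : |(reps m n : ℝ) - S / a| ≤ |(reps m n : ℝ) - S / c| + |S / c - S / a| := by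
    have : (reps m n : ℝ) - S / a = ((reps m n : ℝ) - S / c) + (S / c - S / a) := by ring
    rw [this]
    exact abs_add_le _ _
  have e8 : 0 ≤ ε * (S / a) := by positivity
  linarith

open Pool.Agent.Y885 in
/-- almost all values of a random integer with a thin large spectrum -/
theorem tl_floor (b E : ℕ) (hb : 2 ≤ b) (hE : 1 ≤ E) (ε : ℝ) (hε : 0 < ε) (hε1 : ε ≤ 1) (Bc A W U M e₁ : ℕ)
    (he₁ : (M + 1) * (Bc + 1 + 2 + M * (Bc + 1 + 3) + 1) + 2 ≤ e₁) (c : ℕ) :
    ∃ N₀ : ℕ, ∀ N, N₀ ≤ N →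
    ∀ (ι : Type) (Ω : Finset ι) (p : ι → ℝ) (Y : ι → ℤ), TLaw b E c (VL (A + 1) 0 (W + 1) (U + 1)) (Nat.log b N + 1 + e₁) Ω p Y →
    (∀ ω ∈ Ω, |Y ω| ≤ (Bc : ℤ) * N) → ∀ bad : ι → Prop, ∀ _ : DecidablePred bad,
    (∀ ω ∈ Ω, bad ω → ∃ n : ℕ, |((n - Y ω : ℤ) : ℝ)| ≤ Real.log N ^ A ∧ (N : ℝ) / Real.log N ^ W ≤ n ∧ ¬ Holds ε M n) →
    ∑ ω ∈ Ω, (if bad ω then p ω else 0) ≤ 1 / Real.log N ^ U := by
  classical
  obtain ⟨N0, h0⟩ := tl_multi b E hb hE (ε / 4 / 3) (by positivity) (Bc + 1) (A + 1) 0 (W + 1) U M e₁ he₁ c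
  obtain ⟨N1, h1⟩ := one_offset (ε / 4) (by positivity) (Bc + 1) M W
  obtain ⟨N2, h2⟩ := Pool.Agent.H373R2.T7.ev_L' (M + 2)
  obtain ⟨N3, h3⟩ := Pool.Agent.N469.LP.log_near (ε / 4) (by positivity) (by linarith) (Bc + 1) W
  obtain ⟨N4, h4⟩ := Pool.Agent.H373R2.T7.ev_log' A 1
  obtain ⟨N5, h5⟩ := Pool.Agent.H373R2.T7.ev_log' W 2
  refine ⟨N0 + N1 + N2 + N3 + N4 + N5 + 4, fun N hN ι Ω p Y hlaw hYb bad _ hbad => ?_⟩
  have hL := h2 N (by omega)
  have hM0 : (0 : ℝ) ≤ M := Nat.cast_nonneg M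
  have hL2 : 2 ≤ Real.log (N : ℝ) := by linarith
  have hL0 : 0 < Real.log (N : ℝ) := by linarith
  have hN4 : (4 : ℝ) ≤ N := by exact_mod_cast (by omega : 4 ≤ N)
  have hss : √(N : ℝ) * √(N : ℝ) = N := Real.mul_self_sqrt (by linarith)
  have hs2 : 2 ≤ √(N : ℝ) := by
    apply Real.le_sqrt_of_sq_le
    linarith
  refine h0 N (by omega) ι Ω p Y hlaw (fun ω hω => (hYb ω hω).trans ?_) bad _ ?_
  · apply mul_le_mul_of_nonneg_right _ (by positivity)
    push_cast
    linarith
  intro ω hω hB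
  obtain ⟨n, hn1, hn2, hnot⟩ := hbad ω hω hB
  have hsN : Real.log N ^ A ≤ N := by
    have q1 := h4 N (by omega)
    rw [one_mul] at q1
    refine q1.trans ?_
    nlinarith
  have hnB : n ≤ (Bc + 1) * N := by
    have q1 : ((n - Y ω : ℤ) : ℝ) ≤ N := (le_abs_self _).trans (hn1.trans hsN)
    have q2 : (n : ℤ) - Y ω ≤ N := by exact_mod_cast q1
    have q3 := (abs_le.1 (hYb ω hω)).2
    have q4 : (n : ℤ) ≤ ((Bc + 1) * N : ℕ) := by
      push_cast
      linarith
    exact_mod_cast q4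
  by_contra hcon
  push Not at hcon
  apply hnot
  have hlogn : 0 < Real.log (n : ℝ) := by
    apply Real.log_pos
    have q1 : √(N : ℝ) ≤ (N : ℝ) / Real.log N ^ W := by
      rw [le_div_iff₀ (by positivity)]
      have q2 := h5 N (by omega)
      nlinarith [pow_pos hL0 W]
    linarith
  refine holds_log ε hε hε1 M N n hL0 hlogn ?_ (h3 N (by omega) n hn2 (by exact_mod_cast hnB))
  apply holds_of (ε / 4) (by positivity) (by linarith)
  intro m j hm hmM hj
  obtain ⟨g1, g2⟩ := h1 N (by omega) n hn2 hnB m j hm hmM hj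
  refine ⟨g1, fun hcp => g2 ?_⟩
  obtain ⟨hcop, hodd⟩ := hcp
  have e : Y ω + ((n : ℤ) - Y ω - j) = ((n - j : ℕ) : ℤ) := by
    rw [Nat.cast_sub g1.le]
    ring
  have hrj : |(((n : ℤ) - Y ω - j : ℤ) : ℝ)| ≤ Real.log N ^ (A + 1) := by
    have q0 : (((n : ℤ) - Y ω - j : ℤ) : ℝ) = ((n - Y ω : ℤ) : ℝ) - j := by push_cast; ring
    rw [q0]
    have q1 : |((n - Y ω : ℤ) : ℝ) - j| ≤ |((n - Y ω : ℤ) : ℝ)| + j := by
      have := abs_sub ((n - Y ω : ℤ) : ℝ) (j : ℝ)
      rwa [abs_of_nonneg (Nat.cast_nonneg j : (0 : ℝ) ≤ j)] at this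
    have q2 : (j : ℝ) ≤ M := by exact_mod_cast (by omega : j ≤ M)
    have q3 : 1 ≤ Real.log N ^ A := one_le_pow₀ (by linarith)
    rw [pow_succ]
    nlinarith
  have h6 := hcon m hm hmM ((n : ℤ) - Y ω - j) hrj
  rw [e] at h6
  apply h6
  · exact_mod_cast (by omega : n - j ≠ 0)
  · rw [Int.gcd_comm, Int.gcd_neg, Int.gcd_natCast_natCast]
    exact hcop
  · rw [neg_mul, dvd_neg]
    have q1 : 2 ∣ m * (n - j) := by
      rcases Nat.even_or_odd m with h7 | h7
      · exact Dvd.dvd.mul_right h7.two_dvd _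
      · have h8 : Even (n - j) := by
          rw [← Nat.not_odd_iff_even]
          intro h9
          exact (Nat.not_even_iff_odd.2 hodd) (h9.add_odd h7)
        exact Dvd.dvd.mul_left h8.two_dvd _
    exact_mod_cast q1

end Pool.Agent.J4H77.LP.Floor
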