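import Pool.Agent.J4H77.LP.Floor
import Pool.Agent.J4H77.GB.LasNear

set_option autoImplicit false

/-! Primes `p < n` for which `⌊(n - p) / m⌋` is prime, for all the integers near the numbers `y ± σ`, where `σ` is the sum of
very few elements of a given set. -/

namespace Pool.Agent.J4H77.LP.Floor

open Finset
open Pool.Agent.Y885
open Pool.Agent.H373R2.T7

theorem las_floor (l Q T W : ℕ) (hl : 2 ≤ l) (hQ : 1 ≤ Q) : ∃ C : ℝ, ∀ (H B M : ℕ) (ε : ℝ), 0 < ε → ∃ N₀ : ℕ, ∀ D : Set ℕ,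
    (∀ x : ℕ, 1 ≤ x → ∃ a ∈ D, x ≤ a ∧ a ≤ l * x) → ∀ N : ℕ, N₀ ≤ N → ∀ Y : Finset ℕ, (∀ y ∈ Y, N ≤ y ∧ y ≤ B * N) →
    (Y.card : ℝ) ≤ Real.log N ^ T →
    ∃ S : Finset ℕ, (∀ a ∈ S, a ∈ D ∧ Real.log N ^ H ≤ a ∧ (a : ℝ) ≤ N / Real.log N ^ H) ∧
      (S.card : ℝ) ≤ C * Real.log (Real.log N) ^ 2 ∧ Q ∣ ∑ a ∈ S, a ∧
      ∀ y ∈ Y, ∀ n : ℕ,
        (|(((n : ℤ) - ((y : ℤ) + ((∑ a ∈ S, a : ℕ) : ℤ)) : ℤ) : ℝ)| ≤ Real.log N ^ W ∨
          |(((n : ℤ) - ((y : ℤ) - ((∑ a ∈ S, a : ℕ) : ℤ)) : ℤ) : ℝ)| ≤ Real.log N ^ W) → Holds ε M n := by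
  classical
  obtain ⟨U, hU⟩ : ∃ U, U = T + 1 := ⟨_, rfl⟩
  obtain ⟨b, hb, C, hC⟩ := las_lawP l Q hl hQ (VL (W + 1) 0 (1 + 1) (U + 1))
  refine ⟨C, fun H B M ε hε => ?_⟩
  obtain ⟨ε', hε'⟩ : ∃ ε', ε' = min ε 1 := ⟨_, rfl⟩
  have he0 : 0 < ε' := by rw [hε']; exact lt_min hε (by norm_num)
  have he1 : ε' ≤ ε := by rw [hε']; exact min_le_left _ _
  have he2 : ε' ≤ 1 := by rw [hε']; exact min_le_right _ _
  obtain ⟨e₁, he₁⟩ : ∃ e₁, e₁ = (M + 1) * ((B + 1) + 1 + 2 + M * ((B + 1) + 1 + 3) + 1) + 2 := ⟨_, rfl⟩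
  obtain ⟨c, N₀, h0⟩ := hC H e₁
  obtain ⟨K₀, h1⟩ := tl_floor b 20 hb (by norm_num) ε' he0 he2 (B + 1) W 1 U M e₁ he₁.ge c
  obtain ⟨n1, hn1⟩ := ev_L' 4
  obtain ⟨n2, hn2⟩ := ev_log' W 4
  refine ⟨N₀ + n1 + n2 + K₀ + 16, fun D hD N hN Y hY hYc => ?_⟩
  have hN0 : 0 < N := by omega
  have hN16 : (16 : ℝ) ≤ N := by exact_mod_cast (by omega : 16 ≤ N)
  have hL := hn1 N (by omega)
  have hLW := hn2 N (by omega)
  obtain ⟨L, hLd⟩ : ∃ L, L = Real.log (N : ℝ) := ⟨_, rfl⟩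
  rw [← hLd] at hL hLW hYc
  have hL0 : 0 < L := by linarith
  have hJN : L ^ W ≤ N / 4 := by
    have h2 : √(N : ℝ) ≤ N := by
      rw [Real.sqrt_le_left (by linarith)]
      nlinarith
    linarith
  have hNL : (N : ℝ) / L ^ 1 ≤ N / 4 := by
    rw [pow_one]
    exact div_le_div_of_nonneg_left (by linarith) (by norm_num) hL
  obtain ⟨n, Ω, pr, Sf, g1, g2, g3⟩ := h0 D hD N (by omega)
  have hpr : ∀ ω ∈ Ω, 0 ≤ pr := fun ω hω => g2.nonneg ω hω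
  obtain ⟨Yf, hYf⟩ : ∃ Yf : ℕ → Bool → (Fin n → ℕ) → ℤ, Yf = fun (y : ℕ) (s : Bool) (ω : Fin n → ℕ) =>
    (if s then (1 : ℤ) else -1) * ((∑ a ∈ Sf ω, a : ℕ) : ℤ) + (y : ℤ) := ⟨_, rfl⟩
  have hbd : ∀ y ∈ Y, ∀ s : Bool, ∀ ω ∈ Ω, (N : ℤ) ≤ 2 * Yf y s ω ∧ Yf y s ω ≤ ((B + 1 : ℕ) : ℤ) * N := by
    intro y hy s ω hω
    obtain ⟨y1, y2⟩ := hY y hy
    obtain ⟨_, _, s3, _⟩ := g3 ω hω
    have s4 : (2 : ℤ) * ((∑ a ∈ Sf ω, a : ℕ) : ℤ) ≤ N := by exact_mod_cast s3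
    have s5 : (0 : ℤ) ≤ ((∑ a ∈ Sf ω, a : ℕ) : ℤ) := Nat.cast_nonneg _
    have s6 : (N : ℤ) ≤ y := by exact_mod_cast y1
    have s7 : (y : ℤ) ≤ B * N := by exact_mod_cast y2
    have s8 : (((B + 1 : ℕ) : ℤ)) * N = B * N + N := by push_cast; ring
    rw [hYf, s8]
    cases s
    · simp only [Bool.false_eq_true, if_false]
      constructor <;> linarith
    · simp only [if_true]
      constructor <;> linarith
  have hone : ∀ (y : ℕ), y ∈ Y → ∀ s : Bool,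
      ∑ ω ∈ Ω, (if (∃ m : ℕ, |((m - Yf y s ω : ℤ) : ℝ)| ≤ L ^ W ∧ (N : ℝ) / L ^ 1 ≤ m ∧ ¬ Holds ε' M m) then pr else 0) ≤
        1 / L ^ U := by
    intro y hy s
    have hlaw : TLaw b 20 c (VL (W + 1) 0 (1 + 1) (U + 1)) (Nat.log b N + 1 + e₁) Ω (fun _ => pr) (Yf y s) := by
      rw [hYf]
      cases s
      · have h5 := (g2.neg).add (y : ℤ)
        refine h5.congr (fun ω _ => ?_)
        simp only [Bool.false_eq_true, if_false]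
        ring
      · have h5 := g2.add (y : ℤ)
        refine h5.congr (fun ω _ => ?_)
        simp only [if_true]
        ring
    rw [hLd]
    refine h1 N (by omega) _ Ω (fun _ => pr) (Yf y s) hlaw (fun ω hω => ?_)
      (fun ω => ∃ m : ℕ, |((m - Yf y s ω : ℤ) : ℝ)| ≤ Real.log N ^ W ∧ (N : ℝ) / Real.log N ^ 1 ≤ m ∧ ¬ Holds ε' M m)
      inferInstance (fun ω _ h => h)
    obtain ⟨b1, b2⟩ := hbd y hy s ω hω
    rw [abs_le]
    have e2 : (0 : ℤ) < N := by exact_mod_cast hN0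
    have e3 : (0 : ℤ) ≤ ((B + 1 : ℕ) : ℤ) * N := by positivity
    constructor <;> linarith
  -- the union bound
  have hfin : (((Y ×ˢ (univ : Finset Bool)).card : ℕ) : ℝ) * (1 / L ^ U) < 1 := by
    rw [card_product, card_univ, Fintype.card_bool, Nat.cast_mul, mul_one_div, div_lt_one (by positivity), hU, pow_succ]
    have h2 : 0 < L ^ T := by positivity
    push_cast
    nlinarith
  obtain ⟨ω, hω, hgood⟩ := Pool.Agent.J4H77.GB.exists_good Ω (fun _ => pr) g1 (Y ×ˢ (univ : Finset Bool)) (fun i ω =>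
    ∃ m : ℕ, |((m - Yf i.1 i.2 ω : ℤ) : ℝ)| ≤ L ^ W ∧ (N : ℝ) / L ^ 1 ≤ m ∧ ¬ Holds ε' M m) (1 / L ^ U) hpr (by
      intro i hi
      rw [mem_product] at hi
      exact hone i.1 hi.1 i.2) hfin
  obtain ⟨s1, s2, s3, s4⟩ := g3 ω hω
  refine ⟨Sf ω, s1, s2, s4, ?_⟩
  intro y hy m hor
  have hmono : Holds ε' M m → Holds ε M m := by
    intro h k hk hkM
    obtain ⟨q1, q2⟩ := h k hk hkM
    refine ⟨q1.trans ?_, q2⟩
    have q3 : 0 ≤ main k m := by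
      unfold main
      apply sum_nonneg
      intro j _
      have := Pool.Agent.W93.GB.one_le_sing (k * (m - j))
      positivity
    have := mul_le_mul_of_nonneg_right he1 q3
    linarith
  have hkey : ∀ (s : Bool), |((m - Yf y s ω : ℤ) : ℝ)| ≤ L ^ W → Holds ε M m := by
    intro s h2
    by_contra hcon
    apply hgood (y, s) (by rw [mem_product]; exact ⟨hy, mem_univ _⟩)
    refine ⟨m, h2, ?_, fun h => hcon (hmono h)⟩
    obtain ⟨b1, _⟩ := hbd y hy s ω hω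
    have b2 : ((N : ℤ) : ℝ) ≤ ((2 * Yf y s ω : ℤ) : ℝ) := by exact_mod_cast b1
    rw [Int.cast_mul, Int.cast_natCast] at b2
    have h3 := (abs_le.1 h2).1
    rw [Int.cast_sub, Int.cast_natCast] at h3
    have h4 : ((2 : ℤ) : ℝ) = 2 := by norm_num
    rw [h4] at b2
    linarith
  rw [← hLd] at hor
  rcases hor with h | h
  · apply hkey true
    rw [hYf]
    simp only [if_true, one_mul]
    rw [add_comm (((∑ a ∈ Sf ω, a : ℕ) : ℤ)) (y : ℤ)]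
    exact h
  · apply hkey false
    have e : (m : ℤ) - Yf y false ω = (m : ℤ) - ((y : ℤ) - ((∑ a ∈ Sf ω, a : ℕ) : ℤ)) := by
      rw [hYf]
      simp only [Bool.false_eq_true, if_false]
      ring
    rw [e]
    exact h

end Pool.Agent.J4H77.LP.Floor
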