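import Pool.Agent.N469.LP.RepZ
import Pool.Agent.J4H77.TR.Law

set_option autoImplicit false

/-! Replacing the von Mangoldt function by its sieve model at the values `C n + Y`, for all the integers near almost all the
values of a random integer with a thin large spectrum (generalising `Pool.Agent.N469.LP.sm_rep`, `sm_repZ`). -/

namespace Pool.Agent.J4H77.LP
open Finset
open Pool.Agent.H373R2.T7
open Pool.Agent.Y885
open Pool.Agent.J4H77.TR (scale markov1)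
open Pool.Agent.N469.LP (sum_mult sum_refl)

/-- the union bound over the shifts `|r| ≤ log ^ A N` -/
theorem near (A U : ℕ) : ∃ N₀ : ℕ, ∀ N : ℕ, N₀ ≤ N → ∀ (ι : Type) (S : Finset ι) (p : ι → ℝ), (∀ v ∈ S, 0 ≤ p v) →
    ∀ (E : ι → Prop) (_ : DecidablePred E) (F : ℤ → ι → Prop) (_ : ∀ r, DecidablePred (F r)),
    (∀ r : ℤ, |(r : ℝ)| ≤ Real.log N ^ A → |r| ≤ N → ∑ v ∈ S, (if F r v then p v else 0) ≤ 1 / Real.log N ^ (U + A + 1)) →
    (∀ v ∈ S, E v → ∃ r : ℤ, |(r : ℝ)| ≤ Real.log N ^ A ∧ F r v) →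
    ∑ v ∈ S, (if E v then p v else 0) ≤ 1 / Real.log N ^ U := by
  obtain ⟨N4, h4⟩ := ev_L' ((16 : ℕ) : ℝ)
  obtain ⟨N5, h5⟩ := ev_log' A 1
  refine ⟨N4 + N5 + 3, fun N hN ι S p hp0 E _ F _ hF hE => ?_⟩
  have hL4 := h4 N (by omega)
  have hL1 : (16 : ℝ) ≤ Real.log N := by exact_mod_cast hL4
  have hLN0 : 0 < Real.log N := by linarith
  obtain ⟨M, hM⟩ : ∃ M, M = ⌊Real.log N ^ A⌋₊ := ⟨_, rfl⟩
  have hMN : M ≤ N := by
    rw [hM]
    apply Nat.floor_le_of_le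
    have a1 := h5 N (by omega)
    rw [one_mul] at a1
    refine a1.trans ?_
    rw [Real.sqrt_le_left (by positivity)]
    have : (1 : ℝ) ≤ N := by exact_mod_cast (by omega : 1 ≤ N)
    nlinarith
  have hMr : (M : ℝ) ≤ Real.log N ^ A := by rw [hM]; exact Nat.floor_le (by positivity)
  have g1 : ∀ r ∈ Icc (-(M : ℤ)) M, ∑ v ∈ S, (if F r v then p v else 0) ≤ 1 / Real.log N ^ (U + A + 1) := by
    intro r hr
    rw [mem_Icc] at hr
    have a1 : |r| ≤ (M : ℤ) := abs_le.2 hr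
    refine hF r ?_ (a1.trans (by exact_mod_cast hMN))
    refine le_trans ?_ hMr
    rw [← Int.cast_abs]
    exact_mod_cast a1
  have g3 : ∀ v ∈ S, (if E v then p v else 0) ≤ ∑ r ∈ Icc (-(M : ℤ)) M, (if F r v then p v else 0) := by
    intro v hv
    have hnn : ∀ r, 0 ≤ (if F r v then p v else 0) := by
      intro r
      split_ifs <;> first | exact hp0 v hv | exact le_rfl
    by_cases hEv : E v
    · rw [if_pos hEv]
      obtain ⟨r, hr, hF1⟩ := hE v hv hEv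
      have hrM : r ∈ Icc (-(M : ℤ)) M := by
        have a1 : r.natAbs ≤ M := by
          rw [hM]
          apply Nat.le_floor
          rw [Nat.cast_natAbs, Int.cast_abs]
          exact hr
        rw [mem_Icc]
        omega
      refine le_trans (le_of_eq ?_) (single_le_sum (f := fun r => (if F r v then p v else 0)) (fun r _ => hnn r) hrM)
      rw [if_pos hF1]
    · rw [if_neg hEv]
      exact sum_nonneg fun r _ => hnn r
  refine (sum_le_sum g3).trans ?_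
  rw [sum_comm]
  refine (sum_le_sum g1).trans ?_
  rw [sum_const, nsmul_eq_mul, Int.card_Icc]
  have hMc : (((M : ℤ) + 1 - -(M : ℤ)).toNat : ℝ) ≤ 3 * Real.log N ^ A := by
    have e1 : ((M : ℤ) + 1 - -(M : ℤ)).toNat = 2 * M + 1 := by omega
    rw [e1]
    push_cast
    have : (1 : ℝ) ≤ Real.log N ^ A := one_le_pow₀ (by linarith)
    linarith
  calc (((M : ℤ) + 1 - -(M : ℤ)).toNat : ℝ) * (1 / Real.log N ^ (U + A + 1)) ≤ (3 * Real.log N ^ A) * (1 / Real.log N ^ (U + A + 1)) := by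
        gcongr
    _ = 3 * Real.log N ^ A / Real.log N ^ (U + A + 1) := by ring
    _ ≤ 1 / Real.log N ^ U := by
        rw [div_le_div_iff₀ (by positivity) (by positivity), one_mul]
        have e2 : Real.log N ^ (U + A + 1) = Real.log N * (Real.log N ^ A * Real.log N ^ U) := by ring
        rw [e2]
        have e4 : 0 < Real.log N ^ A * Real.log N ^ U := by positivity
        nlinarith

/-- the exponent of the law -/
def VV (A T U : ℕ) : ℕ := 2 * (U + (U + A + 1) + 2 * T + 1) + 6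

theorem tl_rep (b E : ℕ) (hb : 2 ≤ b) (hE : 1 ≤ E) (m : ℕ) (hm : 1 ≤ m) (Bc A T U e₁ : ℕ) (he₁ : (m + 1) * (Bc + 1) + 2 ≤ e₁) (c : ℕ) :
    ∃ B : ℕ, ∀ Ez : ℕ, ∃ N₀ : ℕ, ∀ N, N₀ ≤ N →
    ∀ (ι : Type) (Ω : Finset ι) (p : ι → ℝ) (Y : ι → ℤ), TLaw b E c (VV A T U) (Nat.log b N + 1 + e₁) Ω p Y →
    (∀ ω ∈ Ω, |Y ω| ≤ (Bc : ℤ) * N) → ∀ z : ℕ, Real.log N ^ B ≤ z → (z : ℝ) ≤ Real.log N ^ Ez →
    ∀ bad : ι → Prop, ∀ _ : DecidablePred bad,
    (∃ (L : ℕ) (g : Fin L → ℕ → ℝ), (L : ℝ) ≤ Real.log N ^ T ∧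
      (∀ l n, 1 ≤ n → n ≤ Bc * N → |g l n| ≤ Real.log N ^ T) ∧
      ∀ ω ∈ Ω, bad ω → ∃ r : ℤ, |(r : ℝ)| ≤ Real.log N ^ A ∧ ∃ l,
        (N : ℝ) / Real.log N ^ U < |∑ n ∈ Icc 1 (Bc * N), g l n *
          (lamI (((m * n : ℕ) : ℤ) + (Y ω + r)) - lamzI z (((m * n : ℕ) : ℤ) + (Y ω + r)))|) →
    ∑ ω ∈ Ω, (if bad ω then p ω else 0) ≤ 1 / Real.log N ^ U := by
  classical
  obtain ⟨U1, hU1⟩ : ∃ U1, U1 = U + (U + A + 1) + 2 * T + 1 := ⟨_, rfl⟩
  have hVV : VV A T U = 2 * U1 + 6 := by rw [hU1]; rfl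
  rw [hVV]
  obtain ⟨B, hB⟩ := Pool.Agent.Y885.tl_dif b E c hb hE U1
  refine ⟨B + 1, fun Ez => ?_⟩
  obtain ⟨K0, h3⟩ := hB Ez
  obtain ⟨N4, h4⟩ := near A U
  obtain ⟨N2, h2⟩ := scale b e₁ hb (by omega)
  obtain ⟨S, hS⟩ : ∃ S : ℝ, S = ((b ^ (e₁ + 1) : ℕ) : ℝ) := ⟨_, rfl⟩
  obtain ⟨N5, h5⟩ := ev_L' (2 ^ B + S * Real.log b ^ U1 + 2)
  refine ⟨N4 + N2 + N5 + b ^ K0 + 3, fun N hN ι Ω p Y hlaw hYb z hz1 hz2 bad _ hE => ?_⟩
  obtain ⟨L, g, hL, hg, hbad⟩ := hE
  obtain ⟨K, hK⟩ : ∃ K, K = Nat.log b N + 1 + e₁ := ⟨_, rfl⟩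
  obtain ⟨s1, s2, s3, s4, s5⟩ := h2 N (by omega) K hK
  rw [← hS] at s2
  rw [← hK] at hlaw
  have hKK : K0 ≤ K := by
    have : K0 ≤ Nat.log b N := Nat.le_log_of_pow_le (by omega) (by omega)
    omega
  have hL5 := h5 N (by omega)
  have hbr : (2 : ℝ) ≤ b := by exact_mod_cast hb
  have hlb : 0 < Real.log (b : ℝ) := Real.log_pos (by linarith)
  have hS0 : 0 < S := by rw [hS]; exact_mod_cast Nat.pow_pos (by omega : 0 < b)
  have hN0 : (0 : ℝ) < N := by exact_mod_cast (by omega : 0 < N)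
  have q1 : 0 < S * Real.log b ^ U1 := by positivity
  have q2 : (0 : ℝ) < 2 ^ B := by positivity
  have hLN1 : 1 ≤ Real.log N := by linarith
  have hLN0 : 0 < Real.log N := by linarith
  have hK0 : 0 < (K : ℝ) := by
    by_contra hcon
    have : (K : ℝ) * Real.log b ≤ 0 := mul_nonpos_of_nonpos_of_nonneg (not_lt.1 hcon) hlb.le
    linarith
  have hz1' : Real.log ((b ^ K : ℕ) : ℝ) ^ B ≤ z := by
    refine le_trans ?_ hz1
    calc Real.log ((b ^ K : ℕ) : ℝ) ^ B ≤ (2 * Real.log N) ^ B := pow_le_pow_left₀ (by linarith) s4 _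
      _ = 2 ^ B * Real.log N ^ B := mul_pow _ _ _
      _ ≤ Real.log N * Real.log N ^ B := mul_le_mul_of_nonneg_right (by linarith) (by positivity)
      _ = Real.log N ^ (B + 1) := by ring
  have hz2' : (z : ℝ) ≤ Real.log ((b ^ K : ℕ) : ℝ) ^ Ez := hz2.trans (pow_le_pow_left₀ hLN0.le s3 _)
  obtain ⟨D, hD⟩ : ∃ D : ℤ → Fin L → ι → ℝ, D = fun (r : ℤ) (l : Fin L) (v : ι) => ∑ n ∈ Icc 1 (Bc * N), g l n *
          (lamI (((m * n : ℕ) : ℤ) + (Y v + r)) - lamzI z (((m * n : ℕ) : ℤ) + (Y v + r))) := ⟨_, rfl⟩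
  refine h4 N (by omega) ι Ω p hlaw.nonneg bad _ (fun r v => ∃ l, (N : ℝ) / Real.log N ^ U < |D r l v|)
      (fun r v => Classical.propDecidable _) ?_ ?_
  · intro r _ hr
    have l1 : TLaw b E c (2 * U1 + 6) K Ω p (fun v => Y v + r) := hlaw.add r
    have s1' : ((m : ℤ) + 1) * ((Bc : ℤ) + 1) * N + 2 * N ≤ (b : ℤ) ^ K := by
      have e1 : (((m + 1) * (Bc + 1) + 2 : ℕ) : ℤ) * N ≤ (e₁ : ℤ) * N :=
        mul_le_mul_of_nonneg_right (by exact_mod_cast he₁) (by positivity)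
      have e2 := e1.trans s1
      push_cast at e2
      linarith
    have hm0 : (0 : ℤ) ≤ m := by positivity
    have hBc0 : (0 : ℤ) ≤ Bc := by positivity
    have hNz : (1 : ℤ) ≤ N := by exact_mod_cast (by omega : 1 ≤ N)
    have p1 : (0 : ℤ) ≤ (m : ℤ) * Bc * N := by positivity
    have p2 : (0 : ℤ) ≤ (m : ℤ) * N := by positivity
    have p3 : (0 : ℤ) ≤ (Bc : ℤ) * N := by positivity
    have s1'' : (m : ℤ) * Bc * N + m * N + Bc * N + 3 * N ≤ (b : ℤ) ^ K := by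
      have : ((m : ℤ) + 1) * ((Bc : ℤ) + 1) * N + 2 * N = (m : ℤ) * Bc * N + m * N + Bc * N + 3 * N := by ring
      linarith
    have key : ∀ l, ∑ v ∈ Ω, p v * |D r l v| ≤ Real.log N ^ T * (((b ^ K : ℕ) : ℝ) / (K : ℝ) ^ U1) := by
      intro l
      have k1 := h3 K hKK z hz1' hz2' ι Ω p _ l1 (m * (Bc * N)) (by push_cast; linarith) (by
        intro v hv
        have a1 := abs_le.1 (hYb v hv)
        have a2 := abs_le.1 hr
        push_cast
        constructor <;> linarith [a1.1, a1.2, a2.1, a2.2]) (Real.log N ^ T) (by positivity)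
        (fun k => if m ∣ k then g l (k / m) else 0) (by
          intro k hk
          rw [mem_Icc] at hk
          split_ifs with hd
          · obtain ⟨n, rfl⟩ := hd
            rw [Nat.mul_div_cancel_left n (by omega)]
            exact hg l n (Nat.pos_of_mul_pos_left hk.1) (Nat.le_of_mul_le_mul_left hk.2 hm)
          · rw [abs_zero]; positivity)
      refine le_trans (le_of_eq ?_) k1
      apply sum_congr rfl
      intro v _
      congr 2
      rw [hD]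
      simp only
      rw [sum_mult m (Bc * N) hm (g l) (fun x => lamI x - lamzI z x) (Y v + r)]
    -- Markov
    have hthr : (0 : ℝ) < N / Real.log N ^ U := by positivity
    have g1 : ∀ v ∈ Ω, (if ∃ l, (N : ℝ) / Real.log N ^ U < |D r l v| then p v else 0) ≤
        ∑ l, p v * |D r l v| / (N / Real.log N ^ U) := by
      intro v hv
      have hpv := hlaw.nonneg v hv
      split_ifs with h
      · obtain ⟨l, hl⟩ := h
        refine le_trans ?_ (single_le_sum (f := fun l => p v * |D r l v| / (N / Real.log N ^ U))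
          (fun l _ => by positivity) (mem_univ l))
        rw [le_div_iff₀ hthr]
        exact mul_le_mul_of_nonneg_left hl.le hpv
      · exact sum_nonneg fun l _ => by positivity
    refine le_trans (le_of_eq ?_) ((sum_le_sum g1).trans ?_)
    · apply sum_congr rfl
      intro v _
      congr
    rw [sum_comm]
    have g2 : ∀ l, ∑ v ∈ Ω, p v * |D r l v| / (N / Real.log N ^ U) ≤
        Real.log N ^ T * (((b ^ K : ℕ) : ℝ) / (K : ℝ) ^ U1) / (N / Real.log N ^ U) := by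
      intro l
      rw [← sum_div]
      exact div_le_div_of_nonneg_right (key l) hthr.le
    refine (sum_le_sum fun l _ => g2 l).trans ?_
    rw [sum_const, card_univ, Fintype.card_fin, nsmul_eq_mul]
    have e1 : Real.log N ^ U1 ≤ (K : ℝ) ^ U1 * Real.log b ^ U1 := by
      rw [← mul_pow]
      exact pow_le_pow_left₀ hLN0.le s5 _
    have e2 : ((b ^ K : ℕ) : ℝ) / (K : ℝ) ^ U1 ≤ (S * Real.log b ^ U1) * N / Real.log N ^ U1 := by
      rw [div_le_div_iff₀ (by positivity) (by positivity)]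
      calc ((b ^ K : ℕ) : ℝ) * Real.log N ^ U1 ≤ (S * N) * ((K : ℝ) ^ U1 * Real.log b ^ U1) := by gcongr
        _ = _ := by ring
    calc (L : ℝ) * (Real.log N ^ T * (((b ^ K : ℕ) : ℝ) / (K : ℝ) ^ U1) / (N / Real.log N ^ U)) ≤
        Real.log N ^ T * (Real.log N ^ T * ((S * Real.log b ^ U1) * N / Real.log N ^ U1) / (N / Real.log N ^ U)) := by
          gcongr
      _ = ((S * Real.log b ^ U1) * Real.log N ^ (U + 2 * T)) / Real.log N ^ U1 := by
          rw [show U + 2 * T = T + T + U by ring, pow_add, pow_add]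
          field_simp
      _ ≤ (Real.log N * Real.log N ^ (U + 2 * T)) / Real.log N ^ U1 := by
          apply div_le_div_of_nonneg_right _ (by positivity)
          apply mul_le_mul_of_nonneg_right _ (by positivity)
          linarith
      _ = 1 / Real.log N ^ (U + A + 1) := by
          rw [hU1, show U + (U + A + 1) + 2 * T + 1 = (U + 2 * T + 1) + (U + A + 1) by ring, pow_add _ _ (U + A + 1), ← pow_succ']
          field_simp
  · intro v hv hEv
    obtain ⟨r, hr, l, hlt⟩ := hbad v hv hEv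
    refine ⟨r, hr, l, ?_⟩
    rw [hD]
    exact hlt

/-- `C` of any sign -/
theorem tl_repZ (b E : ℕ) (hb : 2 ≤ b) (hE : 1 ≤ E) (C : ℤ) (hC : C ≠ 0) (Bc A T U e₁ : ℕ)
    (he₁ : (C.natAbs + 1) * (Bc + C.natAbs * (Bc + 1) + 1) + 2 ≤ e₁) (c : ℕ) :
    ∃ B : ℕ, ∀ Ez : ℕ, ∃ N₀ : ℕ, ∀ N, N₀ ≤ N →
    ∀ (ι : Type) (Ω : Finset ι) (p : ι → ℝ) (Y : ι → ℤ), TLaw b E c (VV A T U) (Nat.log b N + 1 + e₁) Ω p Y →
    (∀ ω ∈ Ω, |Y ω| ≤ (Bc : ℤ) * N) → ∀ z : ℕ, Real.log N ^ B ≤ z → (z : ℝ) ≤ Real.log N ^ Ez →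
    ∀ bad : ι → Prop, ∀ _ : DecidablePred bad,
    (∃ (L : ℕ) (g : Fin L → ℕ → ℝ), (L : ℝ) ≤ Real.log N ^ T ∧
      (∀ l n, 1 ≤ n → n ≤ Bc * N → |g l n| ≤ Real.log N ^ T) ∧
      ∀ ω ∈ Ω, bad ω → ∃ r : ℤ, |(r : ℝ)| ≤ Real.log N ^ A ∧ ∃ l,
        (N : ℝ) / Real.log N ^ U < |∑ n ∈ Icc 1 (Bc * N), g l n *
          (lamI (C * (n : ℤ) + (Y ω + r)) - lamzI z (C * (n : ℤ) + (Y ω + r)))|) →
    ∑ ω ∈ Ω, (if bad ω then p ω else 0) ≤ 1 / Real.log N ^ U := by
  classical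
  obtain ⟨m, hmd⟩ : ∃ m : ℕ, m = C.natAbs := ⟨_, rfl⟩
  rw [← hmd] at he₁
  have hm1 : 1 ≤ m := by omega
  obtain ⟨B, hB⟩ := tl_rep b E hb hE m hm1 (Bc + m * (Bc + 1)) A T U e₁ he₁ c
  refine ⟨B, fun Ez => ?_⟩
  obtain ⟨N0, h0⟩ := hB Ez
  refine ⟨N0 + 3, fun N hN ι Ω p Y hlaw hYb z hz1 hz2 bad _ hE => ?_⟩
  obtain ⟨L, g, hL, hg, hbad⟩ := hE
  have hLN : 0 ≤ Real.log N ^ T := pow_nonneg (Real.log_natCast_nonneg N) _
  have hsub : Bc * N ≤ (Bc + m * (Bc + 1)) * N := Nat.mul_le_mul_right _ (by omega)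
  have hN1 : (1 : ℤ) ≤ N := by exact_mod_cast (by omega : 1 ≤ N)
  have eI : Icc 1 (Bc * N) = (Icc 1 ((Bc + m * (Bc + 1)) * N)).filter (fun n => n ≤ Bc * N) := by
    ext n
    rw [mem_filter, mem_Icc, mem_Icc]
    omega
  rcases lt_or_gt_of_ne hC with hneg | hpos
  · -- negative `C`
    have hCc : C = -(m : ℤ) := by omega
    refine h0 N (by omega) ι Ω p (fun ω => Y ω + (-((m : ℤ) * ((Bc : ℤ) * N + 1)))) (hlaw.add _) ?_ z hz1 hz2 bad _
      ⟨L, fun l n => if n ≤ Bc * N then g l (Bc * N + 1 - n) else 0, hL, ?_, ?_⟩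
    · intro ω hω
      have h1 := hYb ω hω
      have h2 : |Y ω + (-((m : ℤ) * ((Bc : ℤ) * N + 1)))| ≤ |Y ω| + |-((m : ℤ) * ((Bc : ℤ) * N + 1))| := abs_add_le _ _
      rw [abs_neg, abs_of_nonneg (by positivity : (0 : ℤ) ≤ (m : ℤ) * ((Bc : ℤ) * N + 1))] at h2
      have h3 : (m : ℤ) * 1 ≤ m * N := mul_le_mul_of_nonneg_left hN1 (by positivity)
      push_cast
      nlinarith
    · intro l n h1 h2
      simp only
      split_ifs with h3
      · exact hg l _ (by omega) (by omega)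
      · rw [abs_zero]; exact hLN
    · intro v hv hbv
      obtain ⟨r, hr, l, hl⟩ := hbad v hv hbv
      refine ⟨r, hr, l, lt_of_lt_of_eq hl ?_⟩
      congr 1
      rw [← sum_refl (Bc * N), eI, sum_filter]
      apply sum_congr rfl
      intro n hn
      rw [mem_Icc] at hn
      beta_reduce
      split_ifs with h3
      · have e2 : C * ((Bc * N + 1 - n : ℕ) : ℤ) + (Y v + r) = ((m * n : ℕ) : ℤ) + (Y v + (-((m : ℤ) * ((Bc : ℤ) * N + 1))) + r) := by
          rw [hCc, Nat.cast_sub (by omega)]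
          push_cast
          ring
        rw [e2]
      · rw [zero_mul]
  · have hCc : C = (m : ℤ) := by omega
    refine h0 N (by omega) ι Ω p Y hlaw ?_ z hz1 hz2 bad _
      ⟨L, fun l n => if n ≤ Bc * N then g l n else 0, hL, ?_, ?_⟩
    · intro ω hω
      refine (hYb ω hω).trans ?_
      exact_mod_cast hsub
    · intro l n h1 h2
      simp only
      split_ifs with h3
      · exact hg l _ h1 h3
      · rw [abs_zero]; exact hLN
    · intro v hv hbv
      obtain ⟨r, hr, l, hl⟩ := hbad v hv hbv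
      refine ⟨r, hr, l, lt_of_lt_of_eq hl ?_⟩
      congr 1
      rw [eI, sum_filter]
      apply sum_congr rfl
      intro n _
      beta_reduce
      split_ifs with h3
      · have e2 : C * (n : ℤ) + (Y v + r) = ((m * n : ℕ) : ℤ) + (Y v + r) := by
          rw [hCc]
          push_cast
          ring
        rw [e2]
      · rw [zero_mul]

end Pool.Agent.J4H77.LP
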